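import Pool.Agent.helper5.PR.SpecY

set_option autoImplicit false

namespace Pool.Agent.PR

open Matrix Module

theorem Y_EIG : Y_EIG_stmt := by
  intro K V _ _ _ Q _ ρ hT W hW hne
  obtain ⟨v, hvW, hv0, hv⟩ := hT ⊥ W (fun g w hw => by
    rw [Submodule.mem_bot] at hw ⊢
    rw [hw, map_zero]) hW (bot_lt_iff_ne_bot.2 hne)
  have hv0' : v ≠ 0 := fun h => hv0 (by rw [h]; exact Submodule.zero_mem _)
  choose c hc using hv
  have hc' : ∀ g, ρ g v = c g • v := by
    intro g
    have := hc g
    rw [Submodule.mem_bot, sub_eq_zero] at this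
    exact this
  have hinj : ∀ a b : K, a • v = b • v → a = b := by
    intro a b hab
    have h1 : (a - b) • v = 0 := by rw [sub_smul, hab, sub_self]
    rcases smul_eq_zero.1 h1 with h2 | h2
    · exact sub_eq_zero.1 h2
    · exact absurd h2 hv0'
  let f : Q →* K :=
    { toFun := c
      map_one' := by
        apply hinj
        rw [← hc', map_one, one_smul]
        rfl
      map_mul' := by
        intro g h
        apply hinj
        rw [← hc', map_mul, Module.End.mul_apply, hc' h, map_smul, hc' g, smul_smul, mul_comm] }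
  refine ⟨v, hvW, hv0', f.toHomUnits, ?_⟩
  intro g
  rw [MonoidHom.coe_toHomUnits]
  exact hc' g

end Pool.Agent.PR
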